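import Pool.Agent.Helper46.M8.SC.Par
import Pool.Agent.Helper46.M8.Ns

/-!
# Contractible open subsets of `M⁸`
-/

open Filter Metric Module Set
open scoped Topology ContDiff Matrix Matrix.Norms.Elementwise ComplexConjugate ComplexOrder

set_option maxSynthPendingDepth 3

namespace Pool.Agent.Helper46.M8.SC
open Pool.Agent.Helper46.M8

/-- the open sets: `b i ≠ 0`, `s ≠ -σ`. -/
def AA (i : Fin 3) (σ : ℝ) : Set Mat :=
  {Q | Q ∈ M8 ∧ (Qᴴ * Q) i i ≠ 0 ∧ 1 + σ * Q.trace.re ≠ 0}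

noncomputable def be (i : Fin 3) (Q : Mat) : C3 := ((Qᴴ * Q) i i)⁻¹ • fun k => (Qᴴ * Q) k i

noncomputable def ve (i : Fin 3) (σ : ℝ) (Q : Mat) : C3 :=
  (((1 + σ * Q.trace.re : ℝ) : ℂ)⁻¹) • fun k => Q k i

lemma ou_smul (b v : C3) {c : ℂ} (hc : c ≠ 0) :
    ou (c • b) ((conj c)⁻¹ • v) = (conj c)⁻¹ • ou b v := by
  have hc' : conj c ≠ 0 := by simpa using hc
  have e : ((‖c‖ ^ 2 : ℝ) : ℂ) = conj c * c := by
    rw [← Complex.normSq_eq_conj_mul_self, Complex.normSq_eq_norm_sq]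
  have key : star (c • b) ⬝ᵥ ((conj c)⁻¹ • v) / ((‖c‖ ^ 2 * nn b : ℝ) : ℂ) * c
      = (conj c)⁻¹ * (star b ⬝ᵥ v / nn b) := by
    rw [star_smul, smul_dotProduct, dotProduct_smul, Complex.ofReal_mul, e, Complex.star_def]
    simp only [smul_eq_mul]
    by_cases h : (nn b : ℂ) = 0
    · simp [h]
    · field_simp
  rw [ou, ou, nn_smul, smul_smul, key, smul_sub, smul_smul]

lemma rr_smul (b v : C3) {c : ℂ} (hc : c ≠ 0) :
    rr (c • b) ((conj c)⁻¹ • v) = rr b v := by
  have h1 : ‖c‖ ≠ 0 := by simpa using hc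
  rw [rr, rr, ou_smul b v hc, nn_smul, nn_smul, norm_inv, Complex.norm_conj]
  field_simp

lemma Ph_smul (σ : ℝ) (b v : C3) {c : ℂ} (hc : c ≠ 0) :
    Ph σ (c • b) ((conj c)⁻¹ • v) = Ph σ b v := by
  have hc' : conj c ≠ 0 := by simpa using hc
  have e : ((‖c‖ ^ 2 : ℝ) : ℂ) = conj c * c := by
    rw [← Complex.normSq_eq_conj_mul_self, Complex.normSq_eq_norm_sq]
  have h1 : av σ (c • b) ((conj c)⁻¹ • v) = (conj c)⁻¹ • av σ b v := by
    rw [av, av, rr_smul b v hc, ou_smul b v hc, nn_smul, smul_comm (conj c)⁻¹]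
    congr 1
    rw [smul_add, smul_smul, smul_smul, smul_smul, smul_smul, mul_comm (2 : ℂ)]
    congr 2
    rw [Complex.ofReal_div, Complex.ofReal_div, Complex.ofReal_mul (‖c‖ ^ 2), e]
    by_cases h : (nn b : ℂ) = 0
    · simp [h]
    · field_simp
  rw [Ph, Ph, h1, star_smul, Matrix.smul_vecMulVec, Matrix.vecMulVec_smul, smul_smul,
    Complex.star_def, inv_mul_cancel₀ hc', one_smul]

/-- inversion of the parametrisation for unit vectors. -/
lemma Ph_unit {a b : C3} {s σ : ℝ} (hσ : σ ^ 2 = 1) (ha : star a ⬝ᵥ a = 1)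
    (hb : star b ⬝ᵥ b = 1) (hs : star b ⬝ᵥ a = (s : ℂ)) (h : 1 + σ * s ≠ 0) :
    Ph σ b ((((1 + σ * s : ℝ) : ℂ)⁻¹) • a) = Matrix.vecMulVec a (star b) := by
  have hnb : nn b = 1 := by
    have := star_dot_self b
    rw [hb] at this
    exact_mod_cast this.symm
  have hs' : star a ⬝ᵥ b = (s : ℂ) := by
    rw [← star_dot_comm, hs, Complex.star_def, Complex.conj_ofReal]
  have h' : (1 : ℂ) + σ * s ≠ 0 := by exact_mod_cast h
  have hou : ou b ((((1 + σ * s : ℝ) : ℂ)⁻¹) • a)
      = (((1 + σ * s : ℝ) : ℂ)⁻¹) • (a - (s : ℂ) • b) := by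
    rw [ou, dotProduct_smul, hs, hnb, smul_sub, smul_smul]
    simp
  have hw : nn (a - (s : ℂ) • b) = 1 - s ^ 2 := by
    have h1 := star_dot_self (a - (s : ℂ) • b)
    simp only [star_sub, star_smul, sub_dotProduct, dotProduct_sub, smul_dotProduct,
      dotProduct_smul, ha, hb, hs, hs', smul_eq_mul, Complex.star_def, Complex.conj_ofReal] at h1
    have h2 : ((1 - s ^ 2 : ℝ) : ℂ) = (nn (a - (s : ℂ) • b) : ℂ) := by
      rw [← h1]; push_cast; ring
    exact_mod_cast h2.symm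
  have hrr : rr b ((((1 + σ * s : ℝ) : ℂ)⁻¹) • a) = (1 - σ * s) / (1 + σ * s) := by
    rw [rr, hou, nn_smul, hw, hnb, ← Complex.ofReal_inv, Complex.norm_real, Real.norm_eq_abs,
      sq_abs]
    field_simp
    linear_combination (s ^ 2) * hσ
  have h1 : 1 + rr b ((((1 + σ * s : ℝ) : ℂ)⁻¹) • a) = 2 / (1 + σ * s) := by
    rw [hrr]; field_simp; ring
  have h2 : σ * (1 - rr b ((((1 + σ * s : ℝ) : ℂ)⁻¹) • a)) / nn b = 2 * s / (1 + σ * s) := by
    rw [hrr, hnb]; field_simp; linear_combination (2 * s) * hσ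
  rw [Ph, av, h1, h2, hou]
  congr 1
  push_cast
  ext k
  simp only [Pi.smul_apply, Pi.add_apply, Pi.sub_apply, smul_eq_mul]
  field_simp
  ring

lemma Ph_inv {Q : Mat} {i : Fin 3} {σ : ℝ} (hσ : σ ^ 2 = 1) (hQ : Q ∈ AA i σ) :
    Ph σ (be i Q) (ve i σ Q) = Q := by
  obtain ⟨hM, hi, hs⟩ := hQ
  obtain ⟨a, b, ha, hb, hba, hQ⟩ := exists_form hM
  have hH : Qᴴ * Q = Matrix.vecMulVec b (star b) := by
    rw [hQ, Matrix.conjTranspose_vecMulVec, star_star, Matrix.vecMulVec_mul_vecMulVec, ha,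
      one_smul]
  have hii : (Qᴴ * Q) i i = b i * conj (b i) := by
    rw [hH, Matrix.vecMulVec_apply]; rfl
  have hbi : b i ≠ 0 := by
    intro h0
    rw [hii, h0, zero_mul] at hi
    exact hi rfl
  have hbi' : conj (b i) ≠ 0 := by simpa using hbi
  have h1 : be i Q = (b i)⁻¹ • b := by
    rw [be, hii]
    ext k
    simp only [Pi.smul_apply, smul_eq_mul]
    rw [hH, Matrix.vecMulVec_apply, Pi.star_apply, Complex.star_def]
    field_simp
  have h2 : ve i σ Q = (conj ((b i)⁻¹))⁻¹ • ((((1 + σ * Q.trace.re : ℝ) : ℂ)⁻¹) • a) := by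
    rw [ve]
    ext k
    have h3 : Q k i = a k * conj (b i) := by
      conv_lhs => rw [hQ, Matrix.vecMulVec_apply]
      rfl
    simp only [Pi.smul_apply, smul_eq_mul]
    rw [h3, map_inv₀, inv_inv]
    ring
  rw [h1, h2, Ph_smul σ b _ (inv_ne_zero hbi), Ph_unit hσ ha hb hba hs]
  exact hQ.symm

lemma Ph_mem_AA {b : C3} (hb : b ≠ 0) {i : Fin 3} (hi : b i ≠ 0) {σ : ℝ} (hσ : σ ^ 2 = 1)
    (v : C3) : Ph σ b v ∈ AA i σ := by
  have h := rr_nonneg b v
  have hn := nn_pos hb
  refine ⟨Ph_mem hb hσ v, ?_, ?_⟩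
  · rw [Ph_sq hb hσ v i, Complex.ofReal_ne_zero]
    have : 0 < ‖b i‖ := norm_pos_iff.mpr hi
    positivity
  · rw [Ph_tr hb σ v]
    have e : 1 + σ * (σ * (1 - rr b v) / (1 + rr b v)) = 2 / (1 + rr b v) := by
      have : 1 + rr b v ≠ 0 := by positivity
      field_simp
      linear_combination (1 - rr b v) * hσ
    rw [e]
    positivity

lemma Ph_mem_AA' {b : C3} (hb : b ≠ 0) {i : Fin 3} (hi : b i ≠ 0) {σ : ℝ} (hσ : σ ^ 2 = 1)
    {v : C3} (hv : ou b v ≠ 0) : Ph σ b v ∈ AA i (-σ) := by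
  have h : 0 < rr b v := mul_pos (nn_pos hv) (nn_pos hb)
  have hn := nn_pos hb
  refine ⟨Ph_mem hb hσ v, ?_, ?_⟩
  · rw [Ph_sq hb hσ v i, Complex.ofReal_ne_zero]
    have : 0 < ‖b i‖ := norm_pos_iff.mpr hi
    positivity
  · rw [Ph_tr hb σ v]
    have e : 1 + -σ * (σ * (1 - rr b v) / (1 + rr b v)) = 2 * rr b v / (1 + rr b v) := by
      have : 1 + rr b v ≠ 0 := by positivity
      field_simp
      linear_combination (-(1 - rr b v)) * hσ
    rw [e]
    positivity

/-! ### continuity -/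
lemma continuous_nn : Continuous nn := by
  unfold nn
  fun_prop

lemma continuous_dot {Y : Type*} [TopologicalSpace Y] {f g : Y → C3} (hf : Continuous f)
    (hg : Continuous g) : Continuous fun y => star (f y) ⬝ᵥ g y := by
  simp only [dotProduct, Pi.star_apply, Complex.star_def]
  fun_prop

lemma continuous_ou {Y : Type*} [TopologicalSpace Y] {f g : Y → C3} (hf : Continuous f)
    (hg : Continuous g) (h0 : ∀ y, f y ≠ 0) : Continuous fun y => ou (f y) (g y) := by
  unfold ou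
  have h1 : Continuous fun y => ((nn (f y) : ℝ) : ℂ) :=
    Complex.continuous_ofReal.comp (continuous_nn.comp hf)
  refine hg.sub (((continuous_dot hf hg).div h1 fun y => ?_).smul hf)
  exact_mod_cast (nn_pos (h0 y)).ne'

lemma continuous_rr {Y : Type*} [TopologicalSpace Y] {f g : Y → C3} (hf : Continuous f)
    (hg : Continuous g) (h0 : ∀ y, f y ≠ 0) : Continuous fun y => rr (f y) (g y) :=
  (continuous_nn.comp (continuous_ou hf hg h0)).mul (continuous_nn.comp hf)

theorem continuous_Ph {Y : Type*} [TopologicalSpace Y] {f g : Y → C3} (σ : ℝ) (hf : Continuous f)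
    (hg : Continuous g) (h0 : ∀ y, f y ≠ 0) : Continuous fun y => Ph σ (f y) (g y) := by
  have h1 := continuous_rr hf hg h0
  have h2 := continuous_ou hf hg h0
  have h3 : Continuous fun y => (((1 + rr (f y) (g y) : ℝ) : ℂ)⁻¹) := by
    refine (Complex.continuous_ofReal.comp (continuous_const.add h1)).inv₀ fun y => ?_
    have := rr_nonneg (f y) (g y)
    have h4 : (1 + rr (f y) (g y) : ℝ) ≠ 0 := by positivity
    exact Complex.ofReal_ne_zero.mpr h4
  have h5 : Continuous fun y => ((σ * (1 - rr (f y) (g y)) / nn (f y) : ℝ) : ℂ) := by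
    refine Complex.continuous_ofReal.comp (Continuous.div (continuous_const.mul
      (continuous_const.sub h1)) (continuous_nn.comp hf) fun y => (nn_pos (h0 y)).ne')
  have h6 : Continuous fun y => av σ (f y) (g y) := by
    unfold av
    have h7 : Continuous fun y => (2 : ℂ) • ou (f y) (g y) := by fun_prop
    exact h3.smul ((h5.smul hf).add h7)
  unfold Ph
  refine continuous_pi fun i => continuous_pi fun j => ?_
  simp only [Matrix.vecMulVec_apply, Pi.star_apply, Complex.star_def]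
  have h7 : Continuous fun y => av σ (f y) (g y) i := (continuous_apply i).comp h6
  have h8 : Continuous fun y => f y j := (continuous_apply j).comp hf
  exact h7.mul (Complex.continuous_conj.comp h8)

lemma be_apply_self {i : Fin 3} {Q : Mat} (h : (Qᴴ * Q) i i ≠ 0) : be i Q i = 1 := by
  rw [be, Pi.smul_apply, smul_eq_mul, inv_mul_cancel₀ h]

lemma continuous_be (i : Fin 3) (σ : ℝ) : Continuous fun Q : AA i σ => be i (Q : Mat) := by
  unfold be
  have h1 : Continuous fun Q : AA i σ => (Q : Mat)ᴴ * (Q : Mat) := by fun_prop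
  have h2 : ∀ k l, Continuous fun Q : AA i σ => ((Q : Mat)ᴴ * (Q : Mat)) k l := fun k l =>
    (continuous_apply l).comp ((continuous_apply k).comp h1)
  exact ((h2 i i).inv₀ fun Q => Q.2.2.1).smul (continuous_pi fun k => h2 k i)

lemma continuous_ve (i : Fin 3) (σ : ℝ) : Continuous fun Q : AA i σ => ve i σ (Q : Mat) := by
  unfold ve
  have h1 : Continuous fun Q : AA i σ => (Q : Mat).trace :=
    Continuous.matrix_trace continuous_subtype_val
  have h2 : Continuous fun Q : AA i σ => (((1 + σ * (Q : Mat).trace.re : ℝ) : ℂ)⁻¹) := by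
    refine (Complex.continuous_ofReal.comp (continuous_const.add (continuous_const.mul
      (Complex.continuous_re.comp h1)))).inv₀ fun Q => ?_
    exact Complex.ofReal_ne_zero.mpr Q.2.2.2
  have h3 : ∀ k l, Continuous fun Q : AA i σ => (Q : Mat) k l := fun k l =>
    (continuous_apply l).comp ((continuous_apply k).comp continuous_subtype_val)
  exact h2.smul (continuous_pi fun k => h3 k i)

/-- the sets `AA i σ` are contractible. -/
theorem contractible_AA (i : Fin 3) {σ : ℝ} (hσ : σ ^ 2 = 1) : ContractibleSpace (AA i σ) := by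
  rw [contractible_iff_id_nullhomotopic]
  have hne : ∀ (t : unitInterval) (Q : AA i σ),
      ((1 - (t : ℝ) : ℝ) : ℂ) • be i (Q : Mat) + ((t : ℝ) : ℂ) • (Pi.single i 1 : C3) ≠ 0 := by
    intro t Q h0
    have h1 := congrFun h0 i
    simp only [Pi.add_apply, Pi.smul_apply, be_apply_self Q.2.2.1, Pi.single_eq_same, smul_eq_mul,
      mul_one, Pi.zero_apply] at h1
    push_cast at h1
    rw [sub_add_cancel] at h1
    exact one_ne_zero h1
  have hi1 : ∀ (t : unitInterval) (Q : AA i σ),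
      (((1 - (t : ℝ) : ℝ) : ℂ) • be i (Q : Mat) + ((t : ℝ) : ℂ) • (Pi.single i 1 : C3)) i ≠ 0 := by
    intro t Q h1
    simp only [Pi.add_apply, Pi.smul_apply, be_apply_self Q.2.2.1, Pi.single_eq_same, smul_eq_mul,
      mul_one] at h1
    push_cast at h1
    rw [sub_add_cancel] at h1
    exact one_ne_zero h1
  have he : (Pi.single i 1 : C3) ≠ 0 := by
    intro h0
    have := congrFun h0 i
    simp at this
  have hei : (Pi.single i 1 : C3) i ≠ 0 := by simp
  refine ⟨⟨Ph σ (Pi.single i 1) 0, Ph_mem_AA he hei hσ 0⟩, ⟨⟨⟨fun p =>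
    ⟨Ph σ (((1 - (p.1 : ℝ) : ℝ) : ℂ) • be i (p.2 : Mat) + ((p.1 : ℝ) : ℂ) • (Pi.single i 1 : C3))
      (((1 - (p.1 : ℝ) : ℝ) : ℂ) • ve i σ (p.2 : Mat)),
      Ph_mem_AA (hne p.1 p.2) (hi1 p.1 p.2) hσ _⟩, ?_⟩, ?_, ?_⟩⟩⟩
  · refine Continuous.subtype_mk ?_ _
    refine continuous_Ph σ ?_ ?_ fun p => hne p.1 p.2
    · have h1 : Continuous fun p : unitInterval × AA i σ => be i (p.2 : Mat) :=
        (continuous_be i σ).comp continuous_snd
      fun_prop
    · have h1 : Continuous fun p : unitInterval × AA i σ => ve i σ (p.2 : Mat) :=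
        (continuous_ve i σ).comp continuous_snd
      fun_prop
  · intro Q
    apply Subtype.ext
    simp only [ContinuousMap.coe_id, id_eq, Icc.coe_zero, sub_zero, Complex.ofReal_one, one_smul,
      Complex.ofReal_zero, zero_smul, add_zero]
    exact Ph_inv hσ Q.2
  · intro Q
    apply Subtype.ext
    simp only [ContinuousMap.const_apply, Icc.coe_one, sub_self, Complex.ofReal_zero, zero_smul,
      Complex.ofReal_one, one_smul, zero_add]

theorem isSimplyConnected_AA (i : Fin 3) {σ : ℝ} (hσ : σ ^ 2 = 1) :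
    IsSimplyConnected (AA i σ) := by
  have := contractible_AA i hσ
  exact (inferInstance : SimplyConnectedSpace (AA i σ))

end Pool.Agent.Helper46.M8.SC
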