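import Pool.Agent.Helper46.M8.St.T6

/-!
# A parametrisation of `M⁸` for the topology
-/

open Filter Metric Module Set
open scoped Topology ContDiff Matrix Matrix.Norms.Elementwise ComplexConjugate ComplexOrder

set_option maxSynthPendingDepth 3

namespace Pool.Agent.Helper46.M8.SC
open Pool.Agent.Helper46.M8

abbrev C3 := Fin 3 → ℂ

/-- the square of the norm. -/
noncomputable def nn (b : C3) : ℝ := ∑ k, ‖b k‖ ^ 2

lemma star_dot_self (b : C3) : star b ⬝ᵥ b = (nn b : ℂ) := by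
  simp only [dotProduct, Pi.star_apply, Complex.star_def, ← Complex.normSq_eq_conj_mul_self, nn,
    Complex.normSq_eq_norm_sq]
  push_cast
  rfl

lemma nn_pos {b : C3} (hb : b ≠ 0) : 0 < nn b := by
  obtain ⟨k, hk⟩ : ∃ k, b k ≠ 0 := by
    by_contra h
    push Not at h
    exact hb (funext h)
  have h1 : 0 < ‖b k‖ ^ 2 := by positivity
  have h2 : ‖b k‖ ^ 2 ≤ nn b := Finset.single_le_sum (f := fun k => ‖b k‖ ^ 2)
    (fun i _ => by positivity) (Finset.mem_univ k)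
  linarith

lemma nn_nonneg (b : C3) : 0 ≤ nn b := Finset.sum_nonneg fun i _ => by positivity

lemma nn_eq_zero {b : C3} (h : nn b = 0) : b = 0 := by
  by_contra hb
  exact (nn_pos hb).ne' h

lemma nn_smul (c : ℂ) (b : C3) : nn (c • b) = ‖c‖ ^ 2 * nn b := by
  simp only [nn, Pi.smul_apply, norm_smul, mul_pow, Finset.mul_sum]

lemma star_dot_comm (a b : C3) : star (star a ⬝ᵥ b) = star b ⬝ᵥ a := by
  rw [Matrix.star_dotProduct, star_star, dotProduct_comm]

/-- the part of `v` orthogonal to `b`. -/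
noncomputable def ou (b v : C3) : C3 := v - ((star b ⬝ᵥ v) / nn b) • b

noncomputable def rr (b v : C3) : ℝ := nn (ou b v) * nn b

/-- the first vector. -/
noncomputable def av (σ : ℝ) (b v : C3) : C3 :=
  (((1 + rr b v : ℝ) : ℂ)⁻¹) • (((σ * (1 - rr b v) / nn b : ℝ) : ℂ) • b + (2 : ℂ) • ou b v)

noncomputable def Ph (σ : ℝ) (b v : C3) : Mat := Matrix.vecMulVec (av σ b v) (star b)

lemma dot_ou {b : C3} (hb : b ≠ 0) (v : C3) : star b ⬝ᵥ ou b v = 0 := by
  have h := (nn_pos hb).ne'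
  have h' : (nn b : ℂ) ≠ 0 := by exact_mod_cast h
  rw [ou, dotProduct_sub, dotProduct_smul, star_dot_self, smul_eq_mul]
  field_simp
  ring

lemma ou_dot {b : C3} (hb : b ≠ 0) (v : C3) : star (ou b v) ⬝ᵥ b = 0 := by
  rw [← star_dot_comm, dot_ou hb, star_zero]

lemma rr_nonneg (b v : C3) : 0 ≤ rr b v := mul_nonneg (nn_nonneg _) (nn_nonneg _)

lemma dot_av {b : C3} (hb : b ≠ 0) (σ : ℝ) (v : C3) :
    star b ⬝ᵥ av σ b v = ((σ * (1 - rr b v) / (1 + rr b v) : ℝ) : ℂ) := by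
  have h := (nn_pos hb).ne'
  have h' : (nn b : ℂ) ≠ 0 := by exact_mod_cast h
  have h2 : 1 + rr b v ≠ 0 := by have := rr_nonneg b v; positivity
  have h2' : (1 : ℂ) + rr b v ≠ 0 := by exact_mod_cast h2
  rw [av, dotProduct_smul, dotProduct_add, dotProduct_smul, dotProduct_smul, dot_ou hb,
    star_dot_self]
  simp only [smul_eq_mul]
  push_cast
  field_simp
  ring

lemma av_dot {b : C3} (hb : b ≠ 0) {σ : ℝ} (hσ : σ ^ 2 = 1) (v : C3) :
    star (av σ b v) ⬝ᵥ av σ b v = ((nn b : ℝ) : ℂ)⁻¹ := by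
  have h := (nn_pos hb).ne'
  have h' : (nn b : ℂ) ≠ 0 := by exact_mod_cast h
  have h2 : 1 + rr b v ≠ 0 := by have := rr_nonneg b v; positivity
  have h2' : (1 : ℂ) + rr b v ≠ 0 := by exact_mod_cast h2
  have hσ' : (σ : ℂ) ^ 2 = 1 := by exact_mod_cast hσ
  have hr : (rr b v : ℂ) = nn (ou b v) * nn b := by rw [rr]; push_cast; rfl
  rw [av]
  simp only [star_smul, star_add, smul_dotProduct, dotProduct_smul, add_dotProduct,
    dotProduct_add, dot_ou hb, ou_dot hb, star_dot_self, smul_eq_mul, Complex.star_def,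
    Complex.conj_ofReal, map_inv₀, map_ofNat]
  push_cast
  have e : (nn (ou b v) : ℂ) = rr b v / nn b := by
    rw [hr]; field_simp
  rw [e]
  field_simp
  linear_combination ((1 : ℂ) - rr b v) ^ 2 * hσ'

/-- general form of the points of `M⁸`. -/
lemma mem_of_form {a b : C3} {c : ℝ} (hb : b ≠ 0) (h1 : star a ⬝ᵥ a = ((nn b : ℝ) : ℂ)⁻¹)
    (h2 : star b ⬝ᵥ a = (c : ℂ)) : Matrix.vecMulVec a (star b) ∈ M8 := by
  have h := (nn_pos hb).ne'
  have h' : (nn b : ℂ) ≠ 0 := by exact_mod_cast h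
  have hH : (Matrix.vecMulVec a (star b))ᴴ = Matrix.vecMulVec b (star a) := by
    rw [Matrix.conjTranspose_vecMulVec, star_star]
  refine ⟨?_, ?_, ?_⟩
  · rw [hH, Matrix.vecMulVec_mul_vecMulVec, Matrix.vecMulVec_smul, Matrix.smul_mul,
      Matrix.vecMulVec_mul_vecMulVec, Matrix.vecMulVec_smul,
      h1, star_dot_self, smul_smul, mul_inv_cancel₀ h', one_smul]
  · rw [hH, Matrix.vecMulVec_mul_vecMulVec, h1, Matrix.vecMulVec_smul, Matrix.trace_smul, Matrix.trace_vecMulVec,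
      dotProduct_comm, star_dot_self, smul_eq_mul, inv_mul_cancel₀ h']
  · rw [Matrix.trace_vecMulVec, dotProduct_comm, h2, Complex.ofReal_im]

lemma form_sq {a b : C3} (h1 : star a ⬝ᵥ a = ((nn b : ℝ) : ℂ)⁻¹) (i : Fin 3) :
    ((Matrix.vecMulVec a (star b))ᴴ * Matrix.vecMulVec a (star b)) i i
      = ((‖b i‖ ^ 2 / nn b : ℝ) : ℂ) := by
  have hH : (Matrix.vecMulVec a (star b))ᴴ = Matrix.vecMulVec b (star a) := by
    rw [Matrix.conjTranspose_vecMulVec, star_star]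
  rw [hH, Matrix.vecMulVec_mul_vecMulVec, h1, Matrix.vecMulVec_smul, Matrix.smul_apply, Matrix.vecMulVec_apply,
    Pi.star_apply, Complex.star_def, Complex.mul_conj, Complex.normSq_eq_norm_sq, smul_eq_mul]
  push_cast
  field_simp

lemma form_tr {a b : C3} {c : ℝ} (h2 : star b ⬝ᵥ a = (c : ℂ)) :
    (Matrix.vecMulVec a (star b)).trace.re = c := by
  rw [Matrix.trace_vecMulVec, dotProduct_comm, h2, Complex.ofReal_re]

theorem Ph_mem {b : C3} (hb : b ≠ 0) {σ : ℝ} (hσ : σ ^ 2 = 1) (v : C3) : Ph σ b v ∈ M8 :=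
  mem_of_form hb (av_dot hb hσ v) (dot_av hb σ v)

lemma Ph_sq {b : C3} (hb : b ≠ 0) {σ : ℝ} (hσ : σ ^ 2 = 1) (v : C3) (i : Fin 3) :
    ((Ph σ b v)ᴴ * Ph σ b v) i i = ((‖b i‖ ^ 2 / nn b : ℝ) : ℂ) :=
  form_sq (av_dot hb hσ v) i

lemma Ph_tr {b : C3} (hb : b ≠ 0) (σ : ℝ) (v : C3) :
    (Ph σ b v).trace.re = σ * (1 - rr b v) / (1 + rr b v) :=
  form_tr (dot_av hb σ v)

/-- every point of `M⁸` is of the form `a bᴴ`, with unit vectors and `⟨b, a⟩` real. -/
theorem exists_form {Q : Mat} (hQ : Q ∈ M8) : ∃ a b : C3, star a ⬝ᵥ a = 1 ∧ star b ⬝ᵥ b = 1 ∧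
    star b ⬝ᵥ a = (Q.trace.re : ℂ) ∧ Q = Matrix.vecMulVec a (star b) := by
  obtain ⟨h1, h2, h3⟩ := hQ
  set B : Mat := Qᴴ * Q with hB
  have hBB : B * B = B := by
    rw [hB]
    calc Qᴴ * Q * (Qᴴ * Q) = Qᴴ * (Q * Qᴴ * Q) := by simp only [Matrix.mul_assoc]
      _ = Qᴴ * Q := by rw [h1]
  have hBH : Bᴴ = B := by rw [hB, Matrix.conjTranspose_mul, Matrix.conjTranspose_conjTranspose]
  obtain ⟨b, hb, hBb⟩ := T6.exists_fix hBB hBH h2
  have hbB : star b ᵥ* B = star b := by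
    have := congrArg star hBb
    rwa [Matrix.star_mulVec, hBH] at this
  have hPP : Matrix.vecMulVec b (star b) * Matrix.vecMulVec b (star b)
      = Matrix.vecMulVec b (star b) := by
    rw [Matrix.vecMulVec_mul_vecMulVec, hb, one_smul]
  have hPH : (Matrix.vecMulVec b (star b))ᴴ = Matrix.vecMulVec b (star b) := by
    rw [Matrix.conjTranspose_vecMulVec, star_star]
  have hBP : B * Matrix.vecMulVec b (star b) = Matrix.vecMulVec b (star b) := by
    rw [Matrix.mul_vecMulVec, hBb]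
  have hPB : Matrix.vecMulVec b (star b) * B = Matrix.vecMulVec b (star b) := by
    rw [Matrix.vecMulVec_mul, hbB]
  have hBeq : B = Matrix.vecMulVec b (star b) := by
    have h4 : (B - Matrix.vecMulVec b (star b))ᴴ * (B - Matrix.vecMulVec b (star b))
        = B - Matrix.vecMulVec b (star b) := by
      rw [Matrix.conjTranspose_sub, hBH, hPH, Matrix.sub_mul, Matrix.mul_sub, Matrix.mul_sub, hBB,
        hBP, hPB, hPP]
      abel
    have h5 : ((B - Matrix.vecMulVec b (star b))ᴴ * (B - Matrix.vecMulVec b (star b))).trace = 0 := by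
      rw [h4, Matrix.trace_sub, h2, Matrix.trace_vecMulVec, dotProduct_comm, hb, sub_self]
    exact sub_eq_zero.mp (Matrix.trace_conjTranspose_mul_self_eq_zero_iff.mp h5)
  have hQ1 : Q = Matrix.vecMulVec (Q *ᵥ b) (star b) := by
    calc Q = Q * B := by rw [hB, ← Matrix.mul_assoc, h1]
      _ = Matrix.vecMulVec (Q *ᵥ b) (star b) := by rw [hBeq, Matrix.mul_vecMulVec]
  refine ⟨Q *ᵥ b, b, ?_, hb, ?_, hQ1⟩
  · rw [Matrix.star_mulVec, Matrix.dotProduct_mulVec, Matrix.vecMul_vecMul, ← hB, hbB, hb]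
  · have h6 : Q.trace = star b ⬝ᵥ (Q *ᵥ b) := by
      conv_lhs => rw [hQ1]
      rw [Matrix.trace_vecMulVec, dotProduct_comm]
    rw [← h6]
    apply Complex.ext
    · simp
    · simp [h3]

end Pool.Agent.Helper46.M8.SC
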