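import Mathlib

/-!
# Simple connectivity from an open cover

A space covered by simply connected open sets with path connected pairwise intersections and a
common point is simply connected.
-/

open Set unitInterval

namespace Pool.Agent.Helper46.VK

variable {X : Type*} [TopologicalSpace X]

/-- two paths with the same end points in a simply connected subset are homotopic. -/
lemma homotopic_of_mem {A : Set X} (hA : IsSimplyConnected A) {x y : X} (p q : Path x y)
    (hp : ∀ t, p t ∈ A) (hq : ∀ t, q t ∈ A) : Path.Homotopic p q := by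
  have hx : x ∈ A := by simpa using hp 0
  have hy : y ∈ A := by simpa using hp 1
  let p' : Path (⟨x, hx⟩ : A) ⟨y, hy⟩ :=
    { toFun := fun t => ⟨p t, hp t⟩
      continuous_toFun := by fun_prop
      source' := by simp
      target' := by simp }
  let q' : Path (⟨x, hx⟩ : A) ⟨y, hy⟩ :=
    { toFun := fun t => ⟨q t, hq t⟩
      continuous_toFun := by fun_prop
      source' := by simp
      target' := by simp }
  have : SimplyConnectedSpace A := hA
  exact (SimplyConnectedSpace.paths_homotopic p' q').map (⟨Subtype.val, continuous_subtype_val⟩ : C(A, X))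

theorem simplyConnected_of_cover {ι : Type*} {A : ι → Set X} (ho : ∀ i, IsOpen (A i))
    (hc : ∀ x, ∃ i, x ∈ A i) (hs : ∀ i, IsSimplyConnected (A i))
    (hi : ∀ i j, IsPathConnected (A i ∩ A j)) (x₀ : X) (hx₀ : ∀ i, x₀ ∈ A i) :
    SimplyConnectedSpace X := by
  choose ix hix using hc
  have hj : ∀ i x, x ∈ A i → ∃ p : Path x₀ x, ∀ t, p t ∈ A i := by
    intro i x hx
    obtain ⟨p, hp⟩ := (hs i).isPathConnected.joinedIn x₀ (hx₀ i) x hx
    exact ⟨p, hp⟩
  choose c hc using fun x => hj (ix x) x (hix x)
  -- any path in some `A i` is homotopic to the chosen one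
  have key : ∀ i x (p : Path x₀ x), (∀ t, p t ∈ A i) → Path.Homotopic p (c x) := by
    intro i x p hp
    have hx : x ∈ A i := by simpa using hp 1
    obtain ⟨r, hr⟩ := (hi i (ix x)).joinedIn x₀ ⟨hx₀ i, hx₀ _⟩ x ⟨hx, hix x⟩
    exact (homotopic_of_mem (hs i) p r hp fun t => (hr t).1).trans
      (homotopic_of_mem (hs (ix x)) r (c x) (fun t => (hr t).2) (hc x))
  -- one step
  have step : ∀ i x y (p : Path x y), (∀ t, p t ∈ A i) →
      Path.Homotopic ((c x).trans p) (c y) := by
    intro i x y p hp
    have hx : x ∈ A i := by simpa using hp 0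
    obtain ⟨r, hr⟩ := hj i x hx
    refine ((key i x r hr).symm.hcomp (Path.Homotopic.refl p)).trans (key i y _ fun t => ?_)
    have h1 := mem_range_self (f := r.trans p) t
    rw [Path.trans_range] at h1
    rcases h1 with ⟨s, hs'⟩ | ⟨s, hs'⟩
    · rw [← hs']; exact hr s
    · rw [← hs']; exact hp s
  -- subdivision
  have sub : ∀ {x y : X} (γ : Path x y), Path.Homotopic ((c x).trans γ) (c y) := by
    intro x y γ
    obtain ⟨t, ht0, htm, ⟨m, hm⟩, hti⟩ := exists_monotone_Icc_subset_open_cover_unitInterval
      (c := fun i => γ ⁻¹' (A i)) (fun i => (ho i).preimage γ.continuous)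
      (fun s _ => mem_iUnion.2 ⟨ix (γ s), hix (γ s)⟩)
    have ind : ∀ n, Path.Homotopic ((c (γ 0)).trans (γ.subpath 0 (t n))) (c (γ (t n))) := by
      intro n
      induction n with
      | zero =>
        rw [ht0, Path.subpath_self]
        exact ⟨Path.Homotopy.transRefl _⟩
      | succ n ih =>
        obtain ⟨i, hi'⟩ := hti n
        have h1 : ∀ s, γ.subpath (t n) (t (n + 1)) s ∈ A i := by
          intro s
          have h2 := mem_range_self (f := γ.subpath (t n) (t (n + 1))) s
          rw [Path.range_subpath_of_le _ _ _ (htm (Nat.le_succ n))] at h2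
          obtain ⟨u, hu, hu'⟩ := h2
          rw [← hu']
          exact hi' hu
        have h2 := step i _ _ (γ.subpath (t n) (t (n + 1))) h1
        have h3 : Path.Homotopic ((γ.subpath 0 (t n)).trans (γ.subpath (t n) (t (n + 1))))
            (γ.subpath 0 (t (n + 1))) := ⟨Path.Homotopy.subpathTransSubpath γ _ _ _⟩
        have h4 : Path.Homotopic (((c (γ 0)).trans (γ.subpath 0 (t n))).trans
            (γ.subpath (t n) (t (n + 1)))) ((c (γ 0)).trans ((γ.subpath 0 (t n)).trans
            (γ.subpath (t n) (t (n + 1))))) := ⟨Path.Homotopy.transAssoc _ _ _⟩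
        exact (((Path.Homotopic.refl _).hcomp h3).symm.trans h4.symm).trans
          ((ih.hcomp (Path.Homotopic.refl _)).trans h2)
    have h5 := ind m
    rw [hm m le_rfl, Path.subpath_zero_one] at h5
    have gen : ∀ (a b : X) (ha : a = x) (hb : b = y),
        Path.Homotopic ((c a).trans (γ.cast ha hb)) (c b) →
        Path.Homotopic ((c x).trans γ) (c y) := by
      intro a b ha hb h
      subst ha
      subst hb
      simpa using h
    exact gen _ _ _ _ h5
  rw [simply_connected_iff_paths_homotopic']
  refine ⟨⟨⟨x₀⟩, fun x y => ⟨(c x).symm.trans (c y)⟩⟩, fun {x y} p q => ?_⟩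
  have h1 : Path.Homotopic ((c x).trans p) ((c x).trans q) := (sub p).trans (sub q).symm
  have h2 : ∀ r : Path x y, Path.Homotopic ((c x).symm.trans ((c x).trans r)) r := by
    intro r
    have h3 : Path.Homotopic ((c x).symm.trans ((c x).trans r)) (((c x).symm.trans (c x)).trans r) :=
      ⟨(Path.Homotopy.transAssoc _ _ _).symm⟩
    have h4 : Path.Homotopic ((c x).symm.trans (c x)) (Path.refl x) :=
      ⟨(Path.Homotopy.reflSymmTrans _).symm⟩
    exact (h3.trans (h4.hcomp (Path.Homotopic.refl r))).trans ⟨Path.Homotopy.reflTrans _⟩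
  exact ((h2 p).symm.trans ((Path.Homotopic.refl _).hcomp h1)).trans (h2 q)

end Pool.Agent.Helper46.VK
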